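import Mathlib
import Pool.Agent.W893.EV.Fin
import Pool.Agent.W893.EV.Parts

set_option autoImplicit false

/-!
# Almost all monotone functions invariant under a transitive group are evasive (MP_d4e2f9_lc)

For a permutation group `G` of the `n` variables let `M` be the largest number of `G`-orbits on
the `k`-element sets of variables. The proportion of non-evasive functions among the non-trivial
monotone `G`-invariant functions is at most `15 √(log₂((n+1)M+1)/M)`, and its square is at most
`225 (n+1)² |G| / 2ⁿ`. Hence, uniformly in all transitive groups `G` of degree `n` which are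
imprimitive, or contain the alternating group, or have order at most `2ⁿ/n²`, almost all
non-trivial monotone `G`-invariant functions have decision tree complexity `n`.

Proof. A function with a decision tree of depth less than `n` has Euler characteristic zero.
A monotone invariant function is an up-set of the poset of orbits. All minimal orbits of even size
can be removed, and orbits of even size can be added, independently of each other, as long as the
values on the orbits of odd size are kept; these changes have the same sign in the Euler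
characteristic, so by Sperner's theorem it vanishes for a proportion at most `1/√m` of the
functions with `m` free orbits of even (or odd) size. Functions with few free orbits of both
parities have few minimal orbits, and there are few of them, as there are at least `2^M` functions.
-/

namespace Pool.Agent.Results.MP_d4e2f9_lc.AlmostAllInvariant

/-- `f` is computed by a decision tree of depth at most `k`, in the words of the frozen statement
of the problem: every predicate closed under the formation of decision trees holds for it. -/
def DepthLe {n : ℕ} (k : ℕ) (f : (Fin n → Bool) → Bool) : Prop :=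
  ∀ P : ℕ → ((Fin n → Bool) → Bool) → Prop,
    (∀ (m : ℕ) (g : (Fin n → Bool) → Bool), (∀ x y, g x = g y) → P m g) →
    (∀ (m : ℕ) (g : (Fin n → Bool) → Bool) (i : Fin n),
       P m (fun x => g (Function.update x i false)) →
       P m (fun x => g (Function.update x i true)) → P (m + 1) g) →
    P k f

/-- `D(f) = n`: every decision tree for `f` has depth at least `n`. -/
def Evasive {n : ℕ} (f : (Fin n → Bool) → Bool) : Prop := ∀ k, DepthLe k f → n ≤ k

/-- The non-trivial monotone functions invariant under `G`. -/
def Inv {n : ℕ} (G : Subgroup (Equiv.Perm (Fin n))) : Set ((Fin n → Bool) → Bool) :=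
  {f | Monotone f ∧ (∃ x y, f x ≠ f y) ∧ ∀ σ ∈ G, ∀ x : Fin n → Bool, f (x ∘ σ) = f x}

/-- The orbit of a set of variables. -/
def orb {n : ℕ} (G : Subgroup (Equiv.Perm (Fin n))) (A : Finset (Fin n)) :
    Set (Finset (Fin n)) := {B | ∃ σ ∈ G, B = A.map σ.toEmbedding}

/-- The number of orbits of `G` on the `k`-element sets of variables. -/
noncomputable def orbits {n : ℕ} (G : Subgroup (Equiv.Perm (Fin n))) (k : ℕ) : ℕ :=
  {O | ∃ A : Finset (Fin n), A.card = k ∧ O = orb G A}.ncard

/-- `G` is transitive. -/
def Trans {n : ℕ} (G : Subgroup (Equiv.Perm (Fin n))) : Prop := ∀ i j : Fin n, ∃ σ ∈ G, σ i = j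

/-- `G` preserves an equivalence relation other than equality and the total relation. -/
def Imprim {n : ℕ} (G : Subgroup (Equiv.Perm (Fin n))) : Prop :=
  ∃ r : Setoid (Fin n), (∀ σ ∈ G, ∀ i j, r i j → r (σ i) (σ j)) ∧
    (∃ i j, i ≠ j ∧ r i j) ∧ ∃ i j, ¬ r i j

/-- **Almost all monotone functions invariant under a transitive group are evasive.** -/
theorem result :
    (∀ n : ℕ, 1 ≤ n → ∀ G : Subgroup (Equiv.Perm (Fin n)), ∀ M : ℕ, (∀ k, orbits G k ≤ M) →
      (∃ k, orbits G k = M) →
      ({f | f ∈ Inv G ∧ ¬ Evasive f}.ncard : ℝ) * Real.sqrt M ≤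
        15 * Real.sqrt (Nat.clog 2 ((n + 1) * M + 1)) * (Inv G).ncard) ∧
    (∀ n : ℕ, 1 ≤ n → ∀ G : Subgroup (Equiv.Perm (Fin n)),
      {f | f ∈ Inv G ∧ ¬ Evasive f}.ncard ^ 2 * 2 ^ n ≤
        225 * (n + 1) ^ 2 * Nat.card G * (Inv G).ncard ^ 2) ∧
    ∀ ε : ℝ, 0 < ε → ∃ N : ℕ, ∀ n : ℕ, N ≤ n → ∀ G : Subgroup (Equiv.Perm (Fin n)), Trans G →
      (Imprim G ∨ alternatingGroup (Fin n) ≤ G ∨ Nat.card G * n ^ 2 ≤ 2 ^ n) →
      ({f | f ∈ Inv G ∧ ¬ Evasive f}.ncard : ℝ) ≤ ε * (Inv G).ncard :=
  ⟨fun _ hn G M hM hk => W893.EV.partOne G W893.EV.eul hn M hM hk,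
   fun _ hn G => W893.EV.partTwo G W893.EV.eul W893.EV.ord hn,
   W893.EV.partThree W893.EV.eul W893.EV.alt W893.EV.imp W893.EV.ord W893.EV.asy⟩

end Pool.Agent.Results.MP_d4e2f9_lc.AlmostAllInvariant
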